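import Mathlib

/-!
# Common return points of translation surfaces: definitions

A translation atlas on a topological space `M`: charts with values in the plane `ℝ × ℝ` which
differ locally by translations.  For a translation surface `(X, ω)` the space `M` is `X` without
the zeros of `ω`, and the charts are the local primitives `∫ ω` (real part, imaginary part).
-/

namespace Pool.Agent.CRP

open MeasureTheory Filter Topology Set

/-- A translation atlas on the topological space `M`: a set of charts (open partial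
homeomorphisms to the plane) which covers `M` and whose members differ locally by
translations. -/
structure TransAtlas (M : Type*) [TopologicalSpace M] where
  /-- the charts -/
  charts : Set (OpenPartialHomeomorph M (ℝ × ℝ))
  /-- the charts cover `M` -/
  cover : ∀ q : M, ∃ φ ∈ charts, q ∈ φ.source
  /-- two charts differ locally by a translation -/
  compat : ∀ φ ∈ charts, ∀ ψ ∈ charts, ∀ q : M, q ∈ φ.source → q ∈ ψ.source →
    ∃ c : ℝ × ℝ, ∀ᶠ q' in 𝓝 q, ψ q' = φ q' + c

variable {M : Type*} [TopologicalSpace M]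

/-- `c` is, on the set `I` of times, a straight path of velocity `v`: near every time `s ∈ I`,
and in every chart at `c s`, it is `s' ↦ φ (c s) + (s' - s) v`. -/
def Straight (A : TransAtlas M) (v : ℝ × ℝ) (I : Set ℝ) (c : ℝ → M) : Prop :=
  ∀ s ∈ I, ∀ φ ∈ A.charts, c s ∈ φ.source →
    ∀ᶠ s' in 𝓝[I] s, c s' ∈ φ.source ∧ φ (c s') = φ (c s) + (s' - s) • v

/-- The deformed surface `g · (X, ω)`: the same space, the charts are followed by the linear
automorphism `g` of the plane. -/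
def TransAtlas.deform (A : TransAtlas M) (g : (ℝ × ℝ) ≃L[ℝ] (ℝ × ℝ)) : TransAtlas M where
  charts := (fun φ : OpenPartialHomeomorph M (ℝ × ℝ) => φ.transHomeomorph g.toHomeomorph) '' A.charts
  cover := by
    intro q
    obtain ⟨φ, hφ, hq⟩ := A.cover q
    exact ⟨_, ⟨φ, hφ, rfl⟩, hq⟩
  compat := by
    rintro _ ⟨φ, hφ, rfl⟩ _ ⟨ψ, hψ, rfl⟩ q hq1 hq2
    obtain ⟨c, hc⟩ := A.compat φ hφ ψ hψ q hq1 hq2
    refine ⟨g c, hc.mono fun q' hq' => ?_⟩
    show g (ψ q') = g (φ q') + g c
    rw [hq', map_add]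

/-- The circles around `p` concentrate at the point `q` along a set `J` of directions: there is a
sequence of times `t n → ∞` such that for Lebesgue almost every direction `θ ∈ J` the orbit of `p`
under the straight line flow `F_θ` is defined for all times `s ≥ 0` and `F_θ^(t n) (p) → q`. -/
def Concentrates (A : TransAtlas M) (p q : M) (J : Set ℝ) : Prop :=
  ∃ t : ℕ → ℝ, Tendsto t atTop atTop ∧
    ∀ᵐ θ : ℝ ∂(volume.restrict J),
      ∃ c : ℝ → M, c 0 = p ∧ Straight A (Real.cos θ, Real.sin θ) (Ici 0) c ∧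
        Tendsto (fun n => c (t n)) atTop (𝓝 q)

/-- The point `p` is a common return point: there is a sequence of times `t n → ∞` such that
`F_θ^(t n) (p) → p` for Lebesgue almost every direction `θ ∈ [0, 2π)`. -/
def CommonReturn (A : TransAtlas M) (p : M) : Prop :=
  Concentrates A p p (Ico 0 (2 * Real.pi))

/-- The analytic half (squad CRT). -/
def AnStmt : Prop :=
  ∀ K : ℝ, 1 ≤ K → ∃ c > 0, ∀ (O : Set (ℝ × ℝ)) (a R : ℝ), IsOpen O → 0 < R → 0 < a →
    a ≤ c * R →
    (∀ x ∈ Icc (-1:ℝ) 1, ∀ s₁ s₂ : ℝ, 0 < s₁ → s₁ < s₂ →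
      s₁ • ((1:ℝ), x) ∈ O → s₂ • ((1:ℝ), x) ∈ O → s₂ - s₁ < a ∨ R ≤ s₂ - s₁) →
    ∀ᵐ Q : ℝ × ℝ × ℝ, (|Q.1| ≤ K ∧ |Q.2.1| ≤ K ∧ |Q.2.2| ≤ K ∧
        ∀ x ∈ Icc (-1:ℝ) 1, K⁻¹ ≤ Q.1 + Q.2.1 * x + Q.2.2 * x ^ 2) →
      ¬ ∃ t : ℕ → ℝ, Tendsto t atTop atTop ∧
        ∀ᵐ x : ℝ ∂(volume.restrict (Icc (-1) 1)), ∀ᶠ n in atTop,
          (t n / √(Q.1 + Q.2.1 * x + Q.2.2 * x ^ 2)) • ((1:ℝ), x) ∈ O

end Pool.Agent.CRP
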